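import Pool.Agent.KS6_56.LH.Alg

/-!
# The automorphism of the small algebra which exchanges the blocks
-/

namespace Pool.Agent.KS6_56.LH

open FirstOrder FirstOrder.Language

attribute [local instance] algStr

variable {P : Type} [CommRing P] {u : Bool}

/-- a basis element -/
noncomputable def sg {I J : Type} (s : Sg I J) : SA P I J := MonoidAlgebra.single s 1

theorem sg_mul {I J : Type} (s t : Sg I J) : (sg s : SA P I J) * sg t = sg (Sg.mul s t) := by
  unfold sg
  rw [MonoidAlgebra.single_mul_single, one_mul]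
  rfl

/-- the images of the basis elements under the exchange of the blocks -/
noncomputable def swFun : Sg ℕ ℕ → SA P ℕ ℕ
  | Sg.th => sg Sg.th
  | Sg.a 0 => sg Sg.d - sg Sg.c + sg Sg.th
  | Sg.a (k + 1) => sg (Sg.b k)
  | Sg.e => sg Sg.d
  | Sg.b j => sg (Sg.a (j + 1))
  | Sg.c => sg Sg.e - sg (Sg.a 0) + sg Sg.th
  | Sg.d => sg Sg.e
  | Sg.o => sg Sg.o

theorem swFun_mul (x y : Sg ℕ ℕ) : (swFun (x * y) : SA P ℕ ℕ) = swFun x * swFun y := by
  rw [Sg.mul_def]
  rcases x with _ | (_ | i) | _ | j | _ | _ | _ <;> rcases y with _ | (_ | i') | _ | j' | _ | _ | _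
  all_goals
    try (simp [swFun, sg_mul, Sg.mul, mul_add, add_mul, mul_sub, sub_mul]; done)
  · by_cases h : i = i'
    · simp [swFun, sg_mul, Sg.mul, h]
    · simp [swFun, sg_mul, Sg.mul, h]
  · by_cases h : j = j'
    · simp [swFun, sg_mul, Sg.mul, h]
    · simp [swFun, sg_mul, Sg.mul, h]

/-- the exchange of the blocks -/
noncomputable def sw : SA P ℕ ℕ →ₙₐ[P] SA P ℕ ℕ :=
  MonoidAlgebra.liftMagma P { toFun := swFun, map_mul' := swFun_mul }

theorem sw_single (s : Sg ℕ ℕ) (r : P) : sw (MonoidAlgebra.single s r) = r • swFun s := by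
  unfold sw
  simp

theorem sw_sg (s : Sg ℕ ℕ) : sw (sg s : SA P ℕ ℕ) = swFun s := by
  unfold sg
  rw [sw_single, one_smul]

theorem sw_swFun (s : Sg ℕ ℕ) : sw (swFun s : SA P ℕ ℕ) = sg s := by
  rcases s with _ | (_ | i) | _ | j | _ | _ | _
  all_goals simp only [swFun, sw_sg, map_add, map_sub]
  all_goals abel

theorem sw_sw (x : SA P ℕ ℕ) : sw (sw x) = x := by
  induction x using MonoidAlgebra.induction_linear with
  | zero => simp
  | add x y hx hy => rw [map_add, map_add, hx, hy]
  | single s r =>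
    rw [sw_single, map_smul, sw_swFun]
    unfold sg
    simp

theorem sw_one : sw (1 : SA P ℕ ℕ) = 1 := sw_sg Sg.o

/-- the exchange of the blocks as an isomorphism of structures -/
noncomputable def swEquiv : SA P ℕ ℕ ≃[algL P u] SA P ℕ ℕ := equivOfHom sw sw_one sw sw_sw sw_sw

/-- the unit of the first block -/
noncomputable def f1 (J : Type) : SA P ℕ J := sg Sg.e - sg Sg.th

/-- the unit of the second block -/
noncomputable def f2 (J : Type) : SA P ℕ J := sg Sg.d - sg Sg.th

theorem sw_f1 : sw (f1 ℕ : SA P ℕ ℕ) = f2 ℕ := by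
  unfold f1 f2
  rw [map_sub, sw_sg, sw_sg]
  rfl

theorem iota_sg (s : Sg ℕ ℕ) : iota (sg s : SA P ℕ ℕ) = sg (Sg.map id Sum.inl s) :=
  mapHom_single _ _ _ _

theorem iota_f1 : iota (f1 ℕ : SA P ℕ ℕ) = f1 JJ := by
  unfold f1
  rw [map_sub, iota_sg, iota_sg]
  rfl

theorem iota_f2 : iota (f2 ℕ : SA P ℕ ℕ) = f2 JJ := by
  unfold f2
  rw [map_sub, iota_sg, iota_sg]
  rfl

/-- The two block units have the same type in the large algebra. -/
theorem same_type (φ : (algL P u).Formula (Fin 1)) :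
    φ.Realize (fun _ => (f1 JJ : SA P ℕ JJ)) ↔ φ.Realize (fun _ => (f2 JJ : SA P ℕ JJ)) := by
  have h1 := iota_elementary φ (fun _ => (f1 ℕ : SA P ℕ ℕ))
  have h2 := iota_elementary φ (fun _ => (f2 ℕ : SA P ℕ ℕ))
  have h3 := StrongHomClass.realize_formula (swEquiv (P := P) (u := u)) φ (v := fun _ => (f1 ℕ : SA P ℕ ℕ))
  have e1 : iota ∘ (fun _ : Fin 1 => (f1 ℕ : SA P ℕ ℕ)) = fun _ => f1 JJ := by
    funext k; exact iota_f1
  have e2 : iota ∘ (fun _ : Fin 1 => (f2 ℕ : SA P ℕ ℕ)) = fun _ => f2 JJ := by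
    funext k; exact iota_f2
  have e3 : (swEquiv (P := P) (u := u)) ∘ (fun _ : Fin 1 => (f1 ℕ : SA P ℕ ℕ)) = fun _ => f2 ℕ := by
    funext k; exact sw_f1
  rw [e1] at h1
  rw [e2] at h2
  rw [e3] at h3
  rw [h1, h2, h3]

/-! ### the blocks have different sizes -/

/-- the indices in `JJ` occurring in an element -/
def occB (x : SA P ℕ JJ) : Set JJ := {j | x.coeff (Sg.b j) ≠ 0}

theorem occB_finite (x : SA P ℕ JJ) : (occB x).Finite := by
  have : occB x = occ x := by
    ext j
    simp [occB, occ]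
  rw [this]
  exact occ_finite x

/-- the elements of the first block of the semilattice (and the zero) -/
def fstBlock : ℕ → Sg ℕ JJ
  | 0 => Sg.th
  | 1 => Sg.e
  | (k + 2) => Sg.a k

/-- The elements of the first block are combinations of countably many elements. -/
theorem block1 (x : SA P ℕ JJ) :
    f1 JJ * x ∈ Submodule.span P (Set.range fun k => (sg (fstBlock k) : SA P ℕ JJ)) := by
  induction x using MonoidAlgebra.induction_linear with
  | zero => simp
  | add x y hx hy => rw [mul_add]; exact add_mem hx hy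
  | single s r =>
    have h : ∃ k, fstBlock k = Sg.mul Sg.e s := by
      rcases s with _ | i | _ | j | _ | _ | _
      · exact ⟨0, rfl⟩
      · exact ⟨i + 2, rfl⟩
      · exact ⟨1, rfl⟩
      · exact ⟨0, rfl⟩
      · exact ⟨0, rfl⟩
      · exact ⟨0, rfl⟩
      · exact ⟨1, rfl⟩
    obtain ⟨k, hk⟩ := h
    have h2 : (Sg.th : Sg ℕ JJ) * s = Sg.th := by rcases s <;> rfl
    have h3 : f1 JJ * (MonoidAlgebra.single s r : SA P ℕ JJ) =
        r • sg (fstBlock k) - r • sg (fstBlock 0) := by
      unfold f1 sg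
      rw [sub_mul, MonoidAlgebra.single_mul_single, MonoidAlgebra.single_mul_single, one_mul, h2, hk]
      simp [fstBlock]
      rfl
    rw [h3]
    exact sub_mem (Submodule.smul_mem _ _ (Submodule.subset_span ⟨k, rfl⟩))
      (Submodule.smul_mem _ _ (Submodule.subset_span ⟨0, rfl⟩))

theorem f2_mul (j : JJ) :
    f2 JJ * (sg (Sg.b j) - sg Sg.th : SA P ℕ JJ) = sg (Sg.b j) - sg Sg.th := by
  unfold f2
  rw [mul_sub, sub_mul, sub_mul, sg_mul, sg_mul, sg_mul, sg_mul]
  simp [Sg.mul]

/-- No automorphism takes the unit of the first block to the unit of the second block. -/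
theorem no_auto [Nontrivial P] (σ : SA P ℕ JJ ≃ₗ[P] SA P ℕ JJ)
    (hmul : ∀ x y, σ (x * y) = σ x * σ y) : σ (f1 JJ) ≠ f2 JJ := by
  intro hσ
  -- the indices occurring in the images of the countably many elements
  have hc : (⋃ k, occB (σ (sg (fstBlock k)))).Countable :=
    Set.countable_iUnion fun k => (occB_finite _).countable
  have hne : (⋃ k, occB (σ (sg (fstBlock k)))) ≠ Set.univ := by
    intro h
    rw [h] at hc
    have h3 : Countable JJ := Set.countable_univ_iff.mp hc
    have h4 : Countable (Set ℕ) := (Sum.inr_injective (α := ℕ) (β := Set ℕ)).countable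
    obtain ⟨f, hf⟩ := exists_surjective_nat (Set ℕ)
    exact Function.cantor_surjective f hf
  obtain ⟨j, hj⟩ := (Set.ne_univ_iff_exists_notMem _).mp hne
  simp only [Set.mem_iUnion, not_exists, occB, ne_eq, Set.mem_ofPred_eq, not_not] at hj
  let x : SA P ℕ JJ := sg (Sg.b j) - sg Sg.th
  have hx : f1 JJ * σ.symm x = σ.symm x := by
    apply σ.injective
    rw [hmul, σ.apply_symm_apply, hσ]
    exact f2_mul j
  have h1 : σ.symm x ∈ Submodule.span P (Set.range fun k => (sg (fstBlock k) : SA P ℕ JJ)) := by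
    rw [← hx]
    exact block1 _
  let ev : SA P ℕ JJ →ₗ[P] P :=
    { toFun := fun y => y.coeff (Sg.b j)
      map_add' := fun y z => by rw [MonoidAlgebra.coeff_add]; rfl
      map_smul' := fun r y => by rw [MonoidAlgebra.coeff_smul]; rfl }
  have h2 : Submodule.span P (Set.range fun k => (sg (fstBlock k) : SA P ℕ JJ)) ≤
      LinearMap.ker (ev ∘ₗ σ.toLinearMap) := by
    rw [Submodule.span_le]
    rintro _ ⟨k, rfl⟩
    exact hj k
  have h3 : ev (σ (σ.symm x)) = 0 := h2 h1
  rw [σ.apply_symm_apply] at h3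
  have h4 : ev x = 1 := by
    change (sg (Sg.b j) - sg Sg.th : SA P ℕ JJ).coeff (Sg.b j) = 1
    unfold sg
    rw [MonoidAlgebra.coeff_sub, MonoidAlgebra.coeff_single, MonoidAlgebra.coeff_single]
    simp
  rw [h4] at h3
  exact one_ne_zero h3

/-- **The semigroup algebra is not logically homogeneous.** -/
theorem not_homogeneous [Nontrivial P] :
    ¬ Homogeneous (algL P u) (SA P ℕ JJ) (algStr P u (SA P ℕ JJ)) := by
  intro h
  obtain ⟨σ, hσ⟩ := h 1 (fun _ => f1 JJ) (fun _ => f2 JJ) same_type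
  refine no_auto (P := P)
    { σ.toEquiv with
      map_add' := fun x y => σ.map_fun' (AlgF.add : (algL P u).Functions 2) ![x, y]
      map_smul' := fun r x => σ.map_fun' (AlgF.smul r : (algL P u).Functions 1) ![x] } ?_ (hσ 0)
  intro x y
  exact σ.map_fun' (AlgF.mul : (algL P u).Functions 2) ![x, y]

end Pool.Agent.KS6_56.LH
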